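import Pool.Agent.H57.FellerErg

namespace Pool.Agent.Results.MP_417bbc_pr.BiasedErgodic

open MeasureTheory Filter Topology Function Pool.Agent.H57.Feller

/-- configurations on `ℤ²` (`true` is the symbol 1) -/
abbrev Cf : Type := ℤ × ℤ → Bool

/-- nearest-neighbour majority rule: 1 iff at least three of the five sites `i + N` hold 1 -/
def maj (x : Cf) (i : ℤ × ℤ) : Bool :=
  decide (3 ≤ (x i).toNat + (x (i.1 + 1, i.2)).toNat + (x (i.1 - 1, i.2)).toNat +
    (x (i.1, i.2 + 1)).toNat + (x (i.1, i.2 - 1)).toNat)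

/-- the row `θ(a, ·)` as a measure on the two symbols -/
noncomputable def row (θ : Bool → Bool → ℝ) (a : Bool) : Measure Bool :=
  ENNReal.ofReal (θ a false) • Measure.dirac false + ENNReal.ofReal (θ a true) • Measure.dirac true

/-- transition kernel of the perturbed automaton -/
noncomputable def ker (θ : Bool → Bool → ℝ) (x : Cf) : Measure Cf :=
  Measure.infinitePi fun i => row θ (maj x i)

/-- action on measures -/
noncomputable def Phi (θ : Bool → Bool → ℝ) (μ : Measure Cf) : Measure Cf := μ.bind (ker θ)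

/-- ergodicity: a unique invariant probability measure attracting every initial law weakly -/
def IsErgodic (θ : Bool → Bool → ℝ) : Prop :=
  ∃ π : Measure Cf, IsProbabilityMeasure π ∧ Phi θ π = π ∧
    (∀ μ : Measure Cf, IsProbabilityMeasure μ → Phi θ μ = μ → μ = π) ∧
    ∀ μ : Measure Cf, IsProbabilityMeasure μ → ∀ f : C(Cf, ℝ),
      Tendsto (fun t : ℕ => ∫ x, f x ∂((Phi θ)^[t] μ)) atTop (𝓝 (∫ x, f x ∂π))

def upd (a : Bool) (c : Fin 3) : Bool := if c = 0 then false else if c = 1 then true else a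

def step (x : Cf) (ξ : ℤ × ℤ → Fin 3) : Cf := fun i => upd (maj x i) (ξ i)

lemma cont_maj (i : ℤ × ℤ) : Continuous fun x : Cf => maj x i :=
  (continuous_of_discreteTopology (f := fun p : Bool × Bool × Bool × Bool × Bool =>
    decide (3 ≤ p.1.toNat + p.2.1.toNat + p.2.2.1.toNat + p.2.2.2.1.toNat +
      p.2.2.2.2.toNat))).comp
    (f := fun x : Cf => (x i, x (i.1 + 1, i.2), x (i.1 - 1, i.2), x (i.1, i.2 + 1),
      x (i.1, i.2 - 1))) (by fun_prop)

lemma cont_step : Continuous (uncurry step) := continuous_pi fun i =>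
  (continuous_of_discreteTopology (f := fun p : Bool × Fin 3 => upd p.1 p.2)).comp
    (f := fun p : Cf × (ℤ × ℤ → Fin 3) => (maj p.1 i, p.2 i))
    (((cont_maj i).comp continuous_fst).prodMk (by fun_prop))

def step2 (p : Cf × Cf) (ξ : ℤ × ℤ → Fin 3) : Cf × Cf := (step p.1 ξ, step p.2 ξ)

lemma cont_step2 : Continuous (uncurry step2) :=
  (cont_step.comp (f := fun q : (Cf × Cf) × (ℤ × ℤ → Fin 3) => (q.1.1, q.2)) (by fun_prop)).prodMk
    (cont_step.comp (f := fun q : (Cf × Cf) × (ℤ × ℤ → Fin 3) => (q.1.2, q.2)) (by fun_prop))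

noncomputable def D (k : ℤ × ℤ) : C(Cf × Cf, ℝ) :=
  ⟨fun p => if p.1 k = p.2 k then 0 else 1,
    (continuous_of_discreteTopology (f := fun b : Bool × Bool =>
      if b.1 = b.2 then (0:ℝ) else 1)).comp (f := fun p : Cf × Cf => (p.1 k, p.2 k)) (by fun_prop)⟩

def blk (k : ℤ × ℤ) : Finset (ℤ × ℤ) := {k, (k.1 + 1, k.2), (k.1, k.2 + 1), (k.1 + 1, k.2 + 1)}

lemma card_blk (k : ℤ × ℤ) : (blk k).card = 4 := by
  obtain ⟨a, b⟩ := k
  unfold blk
  rw [Finset.card_insert_of_notMem, Finset.card_insert_of_notMem, Finset.card_insert_of_notMem] <;>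
    simp

noncomputable def Z (k : ℤ × ℤ) : C(Cf, ℝ) :=
  ⟨fun x => if ∀ j ∈ blk k, x j = false then 0 else 1,
    (continuous_of_discreteTopology (f := fun b : blk k → Bool =>
      if ∀ j, b j = false then (0:ℝ) else 1)).comp (f := fun (x : Cf) (j : blk k) => x j)
      (by fun_prop) |>.congr fun x => by simp only [comp, Subtype.forall]⟩

lemma maj_blk {k : ℤ × ℤ} {x : Cf} (h : ∀ j ∈ blk k, x j = false) : ∀ j ∈ blk k, maj x j = false := by
  obtain ⟨a, b⟩ := k
  have h1 := h (a, b) (by simp [blk])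
  have h2 := h (a + 1, b) (by simp [blk])
  have h3 := h (a, b + 1) (by simp [blk])
  have h4 := h (a + 1, b + 1) (by simp [blk])
  have t := Bool.toNat_le
  intro j hj
  simp only [blk, Finset.mem_insert, Finset.mem_singleton] at hj
  rcases hj with rfl | rfl | rfl | rfl <;>
    simp only [maj, add_sub_cancel_right, h1, h2, h3, h4, Bool.toNat_false,
      decide_eq_false_iff_not, not_le]
  · have := t (x (a - 1, b)); have := t (x (a, b - 1)); omega
  · have := t (x (a + 1 + 1, b)); have := t (x (a + 1, b - 1)); omega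
  · have := t (x (a - 1, b + 1)); have := t (x (a, b + 1 + 1)); omega
  · have := t (x (a + 1 + 1, b + 1)); have := t (x (a + 1, b + 1 + 1)); omega

section
variable {ρ : Measure (Fin 3)} [IsProbabilityMeasure ρ]

noncomputable abbrev P (ρ : Measure (Fin 3)) [IsProbabilityMeasure ρ] : Module.End ℝ C(Cf, ℝ) :=
  op (Measure.infinitePi fun _ : ℤ × ℤ => ρ) step cont_step

noncomputable abbrev Q (ρ : Measure (Fin 3)) [IsProbabilityMeasure ρ] :
    Module.End ℝ C(Cf × Cf, ℝ) :=
  op (Measure.infinitePi fun _ : ℤ × ℤ => ρ) step2 cont_step2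

lemma Q_fst (n : ℕ) (f : C(Cf, ℝ)) :
    (Q ρ ^ n) (f.comp ContinuousMap.fst) = ((P ρ ^ n) f).comp ContinuousMap.fst := by
  induction n with
  | zero => rfl
  | succ n ih => rw [pow_succ', pow_succ', Module.End.mul_apply, Module.End.mul_apply, ih]; rfl

lemma Q_snd (n : ℕ) (f : C(Cf, ℝ)) :
    (Q ρ ^ n) (f.comp ContinuousMap.snd) = ((P ρ ^ n) f).comp ContinuousMap.snd := by
  induction n with
  | zero => rfl
  | succ n ih => rw [pow_succ', pow_succ', Module.End.mul_apply, Module.End.mul_apply, ih]; rfl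

lemma P_Z_aux (k : ℤ × ℤ) (x : Cf) (E : Set (Fin 3))
    (h : ∀ j ∈ blk k, ∀ c ∈ E, upd (maj x j) c = false) : P ρ (Z k) x ≤ 1 - ρ.real E ^ 4 := by
  have hm : MeasurableSet (Set.pi (blk k) fun _ : ℤ × ℤ => E) :=
    MeasurableSet.pi (Finset.countable_toSet _) fun _ _ => MeasurableSet.of_discrete
  have h1 : (Measure.infinitePi fun _ : ℤ × ℤ => ρ).real (Set.pi (blk k) fun _ => E) =
      ρ.real E ^ 4 := by
    rw [Measure.real, Measure.infinitePi_pi _ fun _ _ => MeasurableSet.of_discrete,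
      Finset.prod_const, card_blk, ENNReal.toReal_pow]
    rfl
  rw [op_apply, ← h1, ← probReal_compl_eq_one_sub hm, ← integral_indicator_one hm.compl]
  refine integral_mono (intg _ ((Z k).continuous.comp (cont_step.uncurry_left x)))
    ((integrable_const _).indicator hm.compl) fun ξ => ?_
  by_cases hξ : ξ ∈ Set.pi (blk k) fun _ : ℤ × ℤ => E
  · rw [Set.indicator_of_notMem (not_not.2 hξ)]
    exact (if_pos fun j hj => h j hj _ (hξ j hj)).le
  · rw [Set.indicator_of_mem (show ξ ∈ (Set.pi (blk k) fun _ : ℤ × ℤ => E)ᶜ from hξ)]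
    change (if _ then _ else _ : ℝ) ≤ 1
    split_ifs <;> norm_num

lemma P_Z (k : ℤ × ℤ) :
    P ρ (Z k) ≤ (4 * ρ.real {1}) • (1 : C(Cf, ℝ)) + (1 - ρ.real {0} ^ 4) • Z k := by
  intro x
  have h0 : 0 ≤ ρ.real {1} := measureReal_nonneg
  have h1 : ρ.real {1} ≤ 1 := measureReal_le_one
  change P ρ (Z k) x ≤ 4 * ρ.real {1} * 1 + (1 - ρ.real {0} ^ 4) * (if ∀ j ∈ blk k, x j = false then 0 else 1)
  split_ifs with h
  · have := P_Z_aux (ρ := ρ) k x {1}ᶜ (fun j hj c hc => by
      rw [maj_blk h j hj]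
      have : c ≠ 1 := hc
      simp [upd, this])
    rw [probReal_compl_eq_one_sub (MeasurableSet.singleton _)] at this
    have h2 := one_add_mul_le_pow (a := -ρ.real {1}) (by linarith) 4
    push_cast at h2
    rw [← sub_eq_add_neg] at h2
    linarith
  · have := P_Z_aux (ρ := ρ) k x {0} (fun j hj c hc => by
      have : c = 0 := hc
      simp [upd, this])
    linarith

lemma Z_le (k : ℤ × ℤ) : Z k ≤ 1 := fun x => by
  change (if _ then _ else _ : ℝ) ≤ 1
  split_ifs <;> norm_num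

lemma Pn_Z (k : ℤ × ℤ) (n : ℕ) :
    (P ρ ^ n) (Z k) ≤ (4 * n * ρ.real {1}) • (1 : C(Cf, ℝ)) + (1 - ρ.real {0} ^ 4) ^ n • Z k := by
  have h0 : 0 ≤ ρ.real {1} := measureReal_nonneg
  have h2 : 0 ≤ ρ.real {0} ^ 4 := by positivity
  have h1 : ρ.real {0} ^ 4 ≤ 1 := pow_le_one₀ measureReal_nonneg measureReal_le_one
  induction n with
  | zero => simp
  | succ n ih =>
    rw [pow_succ', Module.End.mul_apply]
    refine (op_mono (hs := cont_step) ih).trans ?_
    rw [map_add, map_smul, map_smul, op_one]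
    intro x
    have h3 := P_Z (ρ := ρ) k x
    have h4 : (1 - ρ.real {0} ^ 4) ^ n ≤ 1 := pow_le_one₀ (by linarith) (by linarith)
    have h5 : 0 ≤ (1 - ρ.real {0} ^ 4) ^ n := pow_nonneg (by linarith) _
    simp only [ContinuousMap.toFun_eq_coe, ContinuousMap.add_apply, ContinuousMap.smul_apply, ContinuousMap.one_apply,
      smul_eq_mul, mul_one] at h3 ⊢
    have h6 := mul_le_mul_of_nonneg_left h3 h5
    push_cast
    rw [pow_succ (1 - ρ.real {0} ^ 4)]
    nlinarith

lemma Qn_D_le (k : ℤ × ℤ) (n : ℕ) (p : Cf × Cf) :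
    (Q ρ ^ n) (D k) p ≤ 2 * (4 * n * ρ.real {1} + (1 - ρ.real {0} ^ 4) ^ n) := by
  have h1 : ρ.real {0} ^ 4 ≤ 1 := pow_le_one₀ measureReal_nonneg measureReal_le_one
  have h5 : 0 ≤ (1 - ρ.real {0} ^ 4) ^ n := pow_nonneg (by linarith) _
  have hD : D k ≤ (Z k).comp ContinuousMap.fst + (Z k).comp ContinuousMap.snd := by
    intro p
    change (if p.1 k = p.2 k then 0 else 1 : ℝ) ≤ (if ∀ j ∈ blk k, p.1 j = false then 0 else 1) +
      (if ∀ j ∈ blk k, p.2 j = false then 0 else 1)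
    split_ifs with h1 h2 h3 h4 h5 <;> try norm_num
    exact h1 ((h5 k (by simp [blk])).trans (‹∀ j ∈ blk k, p.2 j = false› k (by simp [blk])).symm)
  have := pow_mono (ν := Measure.infinitePi fun _ : ℤ × ℤ => ρ) (hs := cont_step2) n hD p
  rw [map_add, Q_fst, Q_snd] at this
  have a1 := Pn_Z (ρ := ρ) k n p.1
  have a2 := Pn_Z (ρ := ρ) k n p.2
  have b1 := mul_le_mul_of_nonneg_left (Z_le k p.1) h5
  have b2 := mul_le_mul_of_nonneg_left (Z_le k p.2) h5
  simp only [ContinuousMap.toFun_eq_coe, ContinuousMap.add_apply, ContinuousMap.smul_apply, ContinuousMap.one_apply,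
    smul_eq_mul, mul_one, ContinuousMap.comp_apply, ContinuousMap.fst_apply,
    ContinuousMap.snd_apply] at this a1 a2 b1 b2
  linarith

noncomputable def box (k : ℤ × ℤ) (n : ℕ) : Finset (ℤ × ℤ) :=
  Finset.Icc (k.1 - n) (k.1 + n) ×ˢ Finset.Icc (k.2 - n) (k.2 + n)

lemma card_box (k : ℤ × ℤ) (n : ℕ) : (box k n).card = (2 * n + 1) ^ 2 := by
  unfold box
  rw [Finset.card_product, Int.card_Icc, Int.card_Icc, sq]
  congr 1 <;> omega

lemma Qn_D_zero (k : ℤ × ℤ) (n : ℕ) (p : Cf × Cf) (h : ∀ j ∈ box k n, p.1 j = p.2 j) :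
    (Q ρ ^ n) (D k) p = 0 := by
  induction n generalizing p with
  | zero => exact if_pos (h k (by simp [box]))
  | succ n ih =>
    rw [pow_succ', Module.End.mul_apply, op_apply]
    refine integral_eq_zero_of_ae (Eventually.of_forall fun ξ => ih _ fun j hj => ?_)
    simp only [box, Finset.mem_product, Finset.mem_Icc] at h hj
    push_cast at h
    simp only [step2, step, maj]
    rw [h j (by omega), h (j.1 + 1, j.2) (by simp only; omega), h (j.1 - 1, j.2) (by simp only; omega),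
      h (j.1, j.2 + 1) (by simp only; omega), h (j.1, j.2 - 1) (by simp only; omega)]

lemma D_nonneg (k : ℤ × ℤ) (p : Cf × Cf) : 0 ≤ D k p := by
  change 0 ≤ (if _ then _ else _ : ℝ)
  split_ifs <;> norm_num

lemma decay {T : ℕ} (hT : 2 * (4 * T * ρ.real {1} + (1 - ρ.real {0} ^ 4) ^ T) * (2 * T + 1) ^ 2
    ≤ 1 / 2) (m : ℕ) (k : ℤ × ℤ) : (Q ρ ^ (m * T)) (D k) ≤ (1 / 2 : ℝ) ^ m • 1 := by
  set c := 2 * (4 * T * ρ.real {1} + (1 - ρ.real {0} ^ 4) ^ T) with hc
  have hc0 : 0 ≤ c := by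
    have h1 : ρ.real {0} ^ 4 ≤ 1 := pow_le_one₀ measureReal_nonneg measureReal_le_one
    have h5 : 0 ≤ (1 - ρ.real {0} ^ 4) ^ T := pow_nonneg (by linarith) _
    have h0 : 0 ≤ ρ.real {1} := measureReal_nonneg
    positivity
  have hstep : ∀ k, (Q ρ ^ T) (D k) ≤ c • ∑ j ∈ box k T, D j := by
    intro k p
    simp only [ContinuousMap.toFun_eq_coe, ContinuousMap.smul_apply, ContinuousMap.coe_sum, Finset.sum_apply, smul_eq_mul]
    by_cases h : ∀ j ∈ box k T, p.1 j = p.2 j
    · rw [Qn_D_zero k T p h]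
      exact mul_nonneg hc0 (Finset.sum_nonneg fun j _ => D_nonneg j p)
    · push Not at h
      obtain ⟨j, hj, hne⟩ := h
      have h1 := Finset.single_le_sum (f := fun j => D j p) (fun j _ => D_nonneg j p) hj
      have h2 : D j p = 1 := if_neg hne
      have h3 := Qn_D_le (ρ := ρ) k T p
      nlinarith
  induction m generalizing k with
  | zero =>
    intro p
    simp only [zero_mul, pow_zero, Module.End.one_apply, one_smul]
    change (if _ then _ else _ : ℝ) ≤ 1
    split_ifs <;> norm_num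
  | succ m ih =>
    rw [add_mul, one_mul, pow_add, Module.End.mul_apply]
    refine (pow_mono (hs := cont_step2) _ (hstep k)).trans ?_
    rw [map_smul, map_sum]
    intro p
    have h1 : ∑ j ∈ box k T, (Q ρ ^ (m * T)) (D j) p ≤ (box k T).card • (1 / 2 : ℝ) ^ m :=
      Finset.sum_le_card_nsmul _ _ _ fun j _ => by simpa using ih j p
    rw [card_box, nsmul_eq_mul] at h1
    push_cast at h1
    simp only [ContinuousMap.toFun_eq_coe, ContinuousMap.smul_apply, ContinuousMap.coe_sum, Finset.sum_apply, smul_eq_mul,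
      ContinuousMap.one_apply, mul_one]
    have h2 := mul_le_mul_of_nonneg_left h1 hc0
    have h3 := mul_le_mul_of_nonneg_right hT (show (0:ℝ) ≤ (1 / 2) ^ m by positivity)
    rw [pow_succ]
    nlinarith

lemma approx (f : C(Cf, ℝ)) {ε : ℝ} (hε : 0 < ε) : ∃ S : Finset (ℤ × ℤ),
    f.comp ContinuousMap.fst - f.comp ContinuousMap.snd ≤
      ε • (1 : C(Cf × Cf, ℝ)) + (2 * ‖f‖) • ∑ k ∈ S, D k := by
  have hK : IsCompact {p : Cf × Cf | ε ≤ f p.1 - f p.2} :=
    (isClosed_le continuous_const (by fun_prop)).isCompact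
  obtain ⟨S, hS⟩ := hK.elim_finite_subfamily_closed (fun k => {p : Cf × Cf | p.1 k = p.2 k})
    (fun k => isClosed_eq (by fun_prop) (by fun_prop)) (by
      refine Set.eq_empty_of_forall_notMem fun p hp => ?_
      have h1 : ε ≤ f p.1 - f p.2 := hp.1
      have h2 : p.1 = p.2 := funext fun k => Set.mem_iInter.1 hp.2 k
      rw [h2] at h1; linarith)
  refine ⟨S, fun p => ?_⟩
  simp only [ContinuousMap.toFun_eq_coe, ContinuousMap.smul_apply, ContinuousMap.coe_sum, Finset.sum_apply, smul_eq_mul,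
    ContinuousMap.one_apply, mul_one, ContinuousMap.add_apply, ContinuousMap.sub_apply,
    ContinuousMap.comp_apply, ContinuousMap.fst_apply, ContinuousMap.snd_apply]
  have h0 : 0 ≤ ∑ k ∈ S, D k p := Finset.sum_nonneg fun j _ => D_nonneg j p
  by_cases h : ∀ k ∈ S, p.1 k = p.2 k
  · have : ¬ ε ≤ f p.1 - f p.2 := fun h1 => by
      have : p ∈ {p : Cf × Cf | ε ≤ f p.1 - f p.2} ∩ ⋂ k ∈ S, {p : Cf × Cf | p.1 k = p.2 k} :=
        ⟨h1, Set.mem_iInter₂.2 h⟩
      rw [hS] at this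
      exact this
    nlinarith [norm_nonneg f]
  · push Not at h
    obtain ⟨j, hj, hne⟩ := h
    have h1 := Finset.single_le_sum (f := fun j => D j p) (fun j _ => D_nonneg j p) hj
    have h2 : D j p = 1 := if_neg hne
    have a1 := (abs_le.1 (f.norm_coe_le_norm p.1)).2
    have a2 := (abs_le.1 (f.norm_coe_le_norm p.2)).1
    nlinarith [norm_nonneg f]

lemma osc {T : ℕ} (hT : 2 * (4 * T * ρ.real {1} + (1 - ρ.real {0} ^ 4) ^ T) * (2 * T + 1) ^ 2
    ≤ 1 / 2) (f : C(Cf, ℝ)) (ε : ℝ) (hε : 0 < ε) :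
    ∃ N, ∀ n, N ≤ n → ∀ y y', (P ρ ^ n) f y - (P ρ ^ n) f y' ≤ ε := by
  obtain ⟨S, hS⟩ := approx f (half_pos hε)
  obtain ⟨m, hm⟩ := exists_pow_lt_of_lt_one (x := ε / 2 / (2 * ‖f‖ * S.card + 1)) (y := 1 / 2)
    (by positivity) (by norm_num)
  refine ⟨m * T, fun n hn y y' => ?_⟩
  obtain ⟨r, rfl⟩ := Nat.exists_eq_add_of_le' hn
  have hD : ∀ k, (Q ρ ^ (r + m * T)) (D k) (y, y') ≤ (1 / 2 : ℝ) ^ m := by
    intro k
    have := pow_mono (ν := Measure.infinitePi fun _ : ℤ × ℤ => ρ) (hs := cont_step2) r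
      (decay hT m k) (y, y')
    rw [map_smul, pow_one'] at this
    rw [pow_add, Module.End.mul_apply]
    simpa using this
  have h1 := pow_mono (ν := Measure.infinitePi fun _ : ℤ × ℤ => ρ) (hs := cont_step2)
    (r + m * T) hS (y, y')
  rw [map_sub, Q_fst, Q_snd, map_add, map_smul, map_smul, pow_one', map_sum] at h1
  simp only [ContinuousMap.toFun_eq_coe, ContinuousMap.smul_apply, ContinuousMap.coe_sum, Finset.sum_apply, smul_eq_mul,
    ContinuousMap.one_apply, mul_one, ContinuousMap.add_apply, ContinuousMap.sub_apply,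
    ContinuousMap.comp_apply, ContinuousMap.fst_apply, ContinuousMap.snd_apply] at h1
  have h2 : ∑ k ∈ S, (Q ρ ^ (r + m * T)) (D k) (y, y') ≤ S.card • (1 / 2 : ℝ) ^ m :=
    Finset.sum_le_card_nsmul _ _ _ fun j _ => hD j
  rw [nsmul_eq_mul] at h2
  rw [lt_div_iff₀ (by positivity)] at hm
  have h3 := mul_le_mul_of_nonneg_left h2 (show 0 ≤ 2 * ‖f‖ by positivity)
  have h4 : (0:ℝ) ≤ (1 / 2) ^ m := by positivity
  nlinarith

end

lemma params {ε : ℝ} (h0 : 0 < ε) (h1 : ε < 1) : ∃ η₀ : ℝ, 0 < η₀ ∧ ∃ T : ℕ, ∀ η, η ≤ η₀ →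
    2 * (4 * T * η + (1 - ε ^ 4) ^ T) * (2 * T + 1) ^ 2 ≤ 1 / 2 := by
  have h2 : ε ^ 4 < 1 := pow_lt_one₀ h0.le h1 (by norm_num)
  have h3 : 0 < ε ^ 4 := by positivity
  have h4 := tendsto_pow_const_mul_const_pow_of_abs_lt_one 2 (r := 1 - ε ^ 4)
    (by rw [abs_lt]; constructor <;> linarith)
  obtain ⟨T, hT1, hT2⟩ := ((h4.eventually (gt_mem_nhds (show (0:ℝ) < 1 / 72 by norm_num))).and
    (eventually_ge_atTop 1)).exists
  have hT : (1:ℝ) ≤ T := by exact_mod_cast hT2
  refine ⟨1 / (32 * T * (2 * T + 1) ^ 2), by positivity, T, fun η hη => ?_⟩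
  rw [le_div_iff₀ (by positivity)] at hη
  have h5 : 0 ≤ (1 - ε ^ 4) ^ T := pow_nonneg (by linarith) _
  have h6 : (2 * (T:ℝ) + 1) ^ 2 ≤ 9 * T ^ 2 := by nlinarith
  nlinarith [mul_le_mul_of_nonneg_left h6 h5]

theorem biased {ε : ℝ} (h0 : 0 < ε) (h1 : ε < 1) : ∃ η₀ : ℝ, 0 < η₀ ∧ ∀ η, 0 ≤ η → η ≤ η₀ →
    ∀ θ : Bool → Bool → ℝ, θ true false = ε → θ true true = 1 - ε → θ false true = η →
      θ false false = 1 - η → Measurable (ker θ) ∧ IsErgodic θ := by
  obtain ⟨η₁, hη₁, T, hT⟩ := params h0 h1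
  refine ⟨min η₁ (1 - ε), lt_min hη₁ (by linarith), fun η hη0 hη θ t1 t2 t3 t4 => ?_⟩
  have hη1 : η ≤ η₁ := hη.trans (min_le_left _ _)
  have hη2 : η ≤ 1 - ε := hη.trans (min_le_right _ _)
  let ρ : Measure (Fin 3) := ENNReal.ofReal ε • Measure.dirac 0 + ENNReal.ofReal η • Measure.dirac 1 +
    ENNReal.ofReal (1 - ε - η) • Measure.dirac 2
  have hρ : IsProbabilityMeasure ρ := ⟨by
    simp only [ρ, Measure.add_apply, Measure.smul_apply, measure_univ, smul_eq_mul, mul_one]
    rw [← ENNReal.ofReal_add h0.le hη0, ← ENNReal.ofReal_add (by linarith) (by linarith)]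
    simp⟩
  have r0 : ρ.real {0} = ε := by
    simp [ρ, Measure.real, h0.le]
  have r1 : ρ.real {1} = η := by
    simp [ρ, Measure.real, hη0]
  have hrow : ∀ a, ρ.map (upd a) = row θ a := by
    intro a
    have hm : Measurable (upd a) := measurable_of_finite _
    simp only [ρ, row]
    rw [Measure.map_add _ _ hm, Measure.map_add _ _ hm, Measure.map_smul, Measure.map_smul,
      Measure.map_smul, Measure.map_dirac' hm, Measure.map_dirac' hm, Measure.map_dirac' hm]
    cases a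
    · rw [t3, t4, show upd false 0 = false from rfl, show upd false 1 = true from rfl,
        show upd false 2 = false from rfl, add_right_comm, ← add_smul,
        ← ENNReal.ofReal_add h0.le (by linarith)]
      congr 3; ring
    · rw [t1, t2, show upd true 0 = false from rfl, show upd true 1 = true from rfl,
        show upd true 2 = true from rfl, add_assoc, ← add_smul,
        ← ENNReal.ofReal_add hη0 (by linarith)]
      congr 3; ring
  have hk : ker θ = fun x => (Measure.infinitePi fun _ : ℤ × ℤ => ρ).map (step x) := by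
    funext x
    have := Measure.infinitePi_map_pi (fun _ : ℤ × ℤ => ρ)
      (f := fun (i : ℤ × ℤ) (c : Fin 3) => upd (maj x i) c) (fun _ => measurable_of_finite _)
    refine Eq.trans ?_ this.symm
    unfold ker
    congr 1
    funext i
    exact (hrow _).symm
  refine ⟨hk ▸ measurable_ker cont_step, ?_⟩
  unfold IsErgodic Phi
  rw [hk]
  exact ergodic_of_osc (hs := cont_step) (osc (T := T) (by rw [r0, r1]; exact hT η hη1))

theorem result (ε₀ : ℝ) (h : 0 < ε₀) : ∃ θ : Bool → Bool → ℝ, (∀ a b, 0 < θ a b) ∧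
    (∀ a, θ a false + θ a true = 1) ∧ (∀ a, 1 - θ a a ≤ ε₀) ∧ Measurable (ker θ) ∧
    IsErgodic θ := by
  have h1 : min ε₀ (1 / 2) ≤ 1 / 2 := min_le_right _ _
  have h2 : min ε₀ (1 / 2) ≤ ε₀ := min_le_left _ _
  have h3 : 0 < min ε₀ (1 / 2) := lt_min h (by norm_num)
  obtain ⟨η₀, hη₀, H⟩ := biased h3 (by linarith)
  have h4 : min η₀ (min ε₀ (1 / 2)) ≤ min ε₀ (1 / 2) := min_le_right _ _
  have h5 : 0 < min η₀ (min ε₀ (1 / 2)) := lt_min hη₀ h3
  refine ⟨fun a b => if a then (if b then 1 - min ε₀ (1 / 2) else min ε₀ (1 / 2))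
    else (if b then min η₀ (min ε₀ (1 / 2)) else 1 - min η₀ (min ε₀ (1 / 2))), fun a b => ?_,
    fun a => ?_, fun a => ?_, H _ h5.le (min_le_left _ _) _ rfl rfl rfl rfl⟩
  · cases a <;> cases b <;> simp only [if_true, Bool.false_eq_true, if_false] <;> linarith
  · cases a <;> simp only [if_true, Bool.false_eq_true, if_false] <;> ring
  · cases a <;> simp only [if_true, Bool.false_eq_true, if_false] <;> linarith

end Pool.Agent.Results.MP_417bbc_pr.BiasedErgodic
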